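import Mathlib

set_option autoImplicit false

namespace Pool.Agent.Results.MP_ff0133_co.Four

/-- A straight-line plane drawing: distinct points for the vertices, and the segments of two
different arcs meet only at a common end vertex. -/
def Planar {n : ℕ} (A : Fin n → Fin n → Prop) : Prop :=
  ∃ p : Fin n → ℝ × ℝ, Function.Injective p ∧ ∀ a b c d, A a b → A c d →
    ∀ x ∈ segment ℝ (p a) (p b), x ∈ segment ℝ (p c) (p d) →
      (a = c ∧ b = d) ∨ ∃ v, (v = a ∨ v = b) ∧ (v = c ∨ v = d) ∧ x = p v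

/-- `S` induces no directed cycle. -/
def Acyc {n : ℕ} (A : Fin n → Fin n → Prop) (S : Set (Fin n)) : Prop :=
  ∀ v, ¬ Relation.TransGen (fun a b => a ∈ S ∧ b ∈ S ∧ A a b) v v

/-- There is an acyclic `(k, d)`-colouring. -/
def Col {n : ℕ} (A : Fin n → Fin n → Prop) (k d : ℕ) : Prop :=
  ∃ c : Fin n → ZMod k, ∀ i : ZMod k, Acyc A {v | ∃ j < d, c v = i + (j : ℕ)}

def L : List (Fin 13 × Fin 13) := [(0, 1), (1, 2), (2, 3), (3, 0), (0, 4), (1, 4), (4, 5), (5, 6), (6, 0), (6, 1), (0, 7), (2, 7), (7, 8), (8, 9), (9, 0), (9, 2), (0, 10), (3, 10), (10, 11), (11, 12), (12, 0), (12, 3)]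

def A (a b : Fin 13) : Prop := (a, b) ∈ L

instance : DecidableRel A := fun a b => by unfold A; infer_instance

def X : Fin 13 → ℤ := ![0, 12, 12, 0, 6, 7, 6, 8, 7, 4, -2, -4, -7]

def Y : Fin 13 → ℤ := ![0, 0, 12, 12, -2, -4, -6, 4, 6, 8, 6, 7, 6]

def cr (a b c : Fin 13) : ℤ := (X b - X a) * (Y c - Y a) - (Y b - Y a) * (X c - X a)

lemma chk : ∀ a b, A a b → ∀ c d, A c d → (a = c ∧ b = d) ∨ 0 < cr a b c * cr a b d ∨
    0 < cr c d a * cr c d b ∨ ((c = a ∨ c = b) ∧ cr a b c = 0 ∧ cr a b d ≠ 0) ∨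
    ((d = a ∨ d = b) ∧ cr a b d = 0 ∧ cr a b c ≠ 0) := by decide +kernel

def p (v : Fin 13) : ℝ × ℝ := (X v, Y v)

lemma seg {a b c d : Fin 13} {x : ℝ × ℝ} (h1 : x ∈ segment ℝ (p a) (p b)) {s t : ℝ}
    (hst : s + t = 1) (h2 : s • p c + t • p d = x) : s * cr a b c + t * cr a b d = 0 := by
  obtain ⟨u, v, -, -, huv, h3⟩ := h1
  rw [← h3] at h2
  obtain ⟨h4, h5⟩ := Prod.ext_iff.1 h2
  simp only [p, Prod.fst_add, Prod.snd_add, Prod.smul_fst, Prod.smul_snd, smul_eq_mul] at h4 h5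
  simp only [cr]
  push_cast
  obtain rfl : s = 1 - t := by linarith
  obtain rfl : u = 1 - v := by linarith
  linear_combination (X b - X a) * h5 - (Y b - Y a) * h4

lemma sep {s t e f : ℝ} (hs : 0 ≤ s) (ht : 0 ≤ t) (hst : s + t = 1) (h : s * e + t * f = 0)
    (h1 : 0 < e * f) : False := by
  rcases mul_pos_iff.1 h1 with ⟨h2, h3⟩ | ⟨h2, h3⟩ <;> rcases hs.eq_or_lt with rfl | h4 <;>
    nlinarith

lemma planar : Planar A := by
  refine ⟨p, fun a b h => ?_, fun a b c d h1 h2 x h3 h4 => ?_⟩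
  · obtain ⟨h1, h2⟩ := Prod.ext_iff.1 h
    simp only [p, Int.cast_inj] at h1 h2
    clear h
    revert a b
    decide
  · have ⟨s, t, hs, ht, hst, h5⟩ := h4
    have ⟨u, v, hu, hv, huv, h6⟩ := h3
    have h7 := seg h3 hst h5
    have h8 := seg h4 huv h6
    rcases chk a b h1 c d h2 with h | h | h | ⟨h, h9, h10⟩ | ⟨h, h9, h10⟩
    · exact Or.inl h
    · exact (sep hs ht hst h7 (by exact_mod_cast h)).elim
    · exact (sep hu hv huv h8 (by exact_mod_cast h)).elim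
    · have : t = 0 := by simpa [h9, h10] using h7
      obtain rfl : s = 1 := by linarith
      exact Or.inr ⟨c, h, Or.inl rfl, by simp [← h5, this]⟩
    · have : s = 0 := by simpa [h9, h10] using h7
      obtain rfl : t = 1 := by linarith
      exact Or.inr ⟨d, h, Or.inr rfl, by simp [← h5, this]⟩

def c3 : Fin 13 → ZMod 3 := ![0, 1, 2, 0, 0, 1, 2, 0, 1, 2, 0, 1, 2]

def rk : ZMod 3 → Fin 13 → ℕ := ![![1, 2, 0, 0, 3, 4, 0, 2, 3, 0, 2, 3, 0], ![0, 2, 3, 0, 0, 0, 1, 0, 0, 1, 0, 0, 1], ![3, 0, 1, 2, 4, 0, 0, 4, 0, 0, 4, 0, 0]]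

lemma col32 : Col A 3 2 := by
  refine ⟨c3, fun i v h => ?_⟩
  have h1 : ∀ i a b, c3 a ≠ i + 2 → c3 b ≠ i + 2 → A a b → rk i a < rk i b := by decide +kernel
  have h2 : ∀ a, a ∈ {v | ∃ j < 2, c3 v = i + (j : ℕ)} → c3 a ≠ i + 2 := by
    rintro a ⟨j, hj, h3⟩ h4
    rw [h4, add_right_inj] at h3
    interval_cases j <;> exact absurd h3 (by decide)
  have key : ∀ a b, Relation.TransGen (fun a b => a ∈ {v | ∃ j < 2, c3 v = i + (j : ℕ)} ∧
      b ∈ {v | ∃ j < 2, c3 v = i + (j : ℕ)} ∧ A a b) a b → rk i a < rk i b := by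
    intro a b h
    induction h with
    | single h => exact h1 _ _ _ (h2 _ h.1) (h2 _ h.2.1) h.2.2
    | tail _ h ih => exact ih.trans (h1 _ _ _ (h2 _ h.1) (h2 _ h.2.1) h.2.2)
  exact lt_irrefl _ (key v v h)

/-- `z` lies outside the `d` consecutive residues mod `k` starting at `i`. -/
def P (k d i z : ℕ) : Prop := i + d ≤ z ∨ (z < i ∧ i + d ≤ z + k)

lemma three {k d p q r : ℕ} (hk : 2 * k < 3 * d) (hp : p < k) (hq : q < k) (hr : r < k) :
    ∃ i < k, ¬ P k d i p ∧ ¬ P k d i q ∧ ¬ P k d i r := by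
  by_contra h
  push Not at h
  have h1 := h p hp
  have h2 := h q hq
  have h3 := h r hr
  unfold P at h1 h2 h3
  omega

lemma fin {k d b c e i j l : ℕ} (hk : 2 * k < 3 * d) (hb : b < k) (hc : c < k) (he : e < k)
    (hi : i < k) (hj : j < k) (hl : l < k) (h1 : P k d i 0) (h2 : P k d i b) (h3 : P k d j 0)
    (h4 : P k d j c) (h5 : P k d l 0) (h6 : P k d l e)
    (h : ∀ i < k, P k d i 0 ∨ P k d i b ∨ P k d i c ∨ P k d i e) : False := by
  have a0 := h 0 (by omega)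
  have a1 := h b hb
  have a2 := h c hc
  have a3 := h e he
  unfold P at *
  have b1 : b + d < k ∨ d < b := by omega
  have b2 : c + d < k ∨ d < c := by omega
  have b3 : e + d < k ∨ d < e := by omega
  clear h1 h2 h3 h4 h5 h6 h
  omega

lemma quad {k d : ℕ} [NeZero k] {c : Fin 13 → ZMod k}
    (hc : ∀ i : ZMod k, Acyc A {v | ∃ j < d, c v = i + (j : ℕ)}) (u v w x : Fin 13)
    (h1 : A u v) (h2 : A v w) (h3 : A w x) (h4 : A x u) (i : ℕ) (hi : i < k) :
    P k d i (c u - c 0).val ∨ P k d i (c v - c 0).val ∨ P k d i (c w - c 0).val ∨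
      P k d i (c x - c 0).val := by
  by_contra h
  push Not at h
  have key : ∀ y, ¬ P k d i (c y - c 0).val → y ∈ {v | ∃ j < d, c v = c 0 + i + (j : ℕ)} := by
    intro y hy
    have h5 := ZMod.val_lt (c y - c 0)
    have h6 : c y = c 0 + ((c y - c 0).val : ℕ) := by simp
    unfold P at hy
    rcases le_or_gt i (c y - c 0).val with h7 | h7
    · refine ⟨(c y - c 0).val - i, by omega, ?_⟩
      rw [Nat.cast_sub h7]
      simp
    · refine ⟨(c y - c 0).val + k - i, by omega, ?_⟩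
      rw [Nat.cast_sub (by omega)]
      simp
  have hu := key u h.1
  have hv := key v h.2.1
  have hw := key w h.2.2.1
  have hx := key x h.2.2.2
  exact hc _ u ((((Relation.TransGen.single ⟨hu, hv, h1⟩).tail ⟨hv, hw, h2⟩).tail
    ⟨hw, hx, h3⟩).tail ⟨hx, hu, h4⟩)

lemma close {k d : ℕ} [NeZero k] (hk : 2 * k < 3 * d) {c : Fin 13 → ZMod k}
    (hc : ∀ i : ZMod k, Acyc A {v | ∃ j < d, c v = i + (j : ℕ)}) (y p q r : Fin 13)
    (h1 : A 0 p) (h2 : A p q) (h3 : A q r) (h4 : A r 0) (h5 : A y p) (h6 : A r y) :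
    ∃ i < k, P k d i 0 ∧ P k d i (c y - c 0).val := by
  obtain ⟨i, hi, h7⟩ := three hk (ZMod.val_lt (c p - c 0)) (ZMod.val_lt (c q - c 0))
    (ZMod.val_lt (c r - c 0))
  have h8 := quad hc 0 p q r h1 h2 h3 h4 i hi
  have h9 := quad hc y p q r h5 h2 h3 h6 i hi
  rw [sub_self, ZMod.val_zero] at h8
  exact ⟨i, hi, h8.resolve_right (by simp [h7]), h9.resolve_right (by simp [h7])⟩

/-- A planar digraph of digirth `g ≥ 4` with star dichromatic number `(g - 1) / (g - 2)`. -/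
theorem result : ∃ g : ℕ, 4 ≤ g ∧ ∃ (n : ℕ) (A : Fin n → Fin n → Prop), (∀ a, ¬ A a a) ∧ Planar A ∧
    IsLeast {m : ℕ | 0 < m ∧ ∃ f : ZMod m → Fin n, Function.Injective f ∧
      ∀ i, A (f i) (f (i + 1))} g ∧
    IsLeast {r : ℚ | ∃ k d : ℕ, 1 ≤ d ∧ d ≤ k ∧ r = k / d ∧ Col A k d}
      (((g : ℚ) - 1) / ((g : ℚ) - 2)) := by
  refine ⟨4, le_rfl, 13, A, by decide, planar, ⟨⟨by norm_num, ![0, 1, 2, 3], by decide,
    by decide⟩, ?_⟩, ⟨3, 2, by norm_num, by norm_num, by norm_num, col32⟩, ?_⟩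
  · rintro m ⟨hm, f, -, h⟩
    by_contra h1
    have h2 : ∀ a b c, A a b → A b c → ¬ a = b ∧ ¬ a = c ∧ ¬ A c a := by decide +kernel
    have h3 := h2 _ _ _ (h 0) (h (0 + 1))
    push Not at h1
    interval_cases m
    · exact h3.1 (congrArg f (by decide))
    · exact h3.2.1 (congrArg f (by decide))
    · exact h3.2.2 (h (0 + 1 + 1))
  rintro r ⟨k, d, hd, hdk, rfl, c, hc⟩
  have : NeZero k := ⟨by omega⟩
  rw [div_le_div_iff₀ (by norm_num) (by exact_mod_cast hd)]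
  by_contra h
  have hk : 2 * k < 3 * d := by
    have : (2 * k : ℚ) < 3 * d := by push_cast at h; linarith
    exact_mod_cast this
  obtain ⟨i, hi, h1, h2⟩ := close hk hc 1 4 5 6 (by decide) (by decide) (by decide) (by decide)
    (by decide) (by decide)
  obtain ⟨j, hj, h3, h4⟩ := close hk hc 2 7 8 9 (by decide) (by decide) (by decide) (by decide)
    (by decide) (by decide)
  obtain ⟨l, hl, h5, h6⟩ := close hk hc 3 10 11 12 (by decide) (by decide) (by decide) (by decide)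
    (by decide) (by decide)
  refine fin hk (ZMod.val_lt _) (ZMod.val_lt _) (ZMod.val_lt _) hi hj hl h1 h2 h3 h4 h5 h6
    fun i hi => ?_
  simpa using quad hc 0 1 2 3 (by decide) (by decide) (by decide) (by decide) i hi

end Pool.Agent.Results.MP_ff0133_co.Four
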